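import Pool.Agent.Lib_helper91.PQ.QC
import Pool.Agent.Lib_helper35.PQ.CPQ
import Pool.Agent.Lib_helper87.PQ.BIL
import Pool.Agent.Lib_helper75.PQ.TPL

/-!
# Project PQ (MP_05dcdc_nt): block DEN, densities among all products of two primes
-/

set_option autoImplicit false

namespace Pool.Agent.PQ

open Finset Filter Topology Pool.Agent.TM32

/-- a family of quartic characters -/
theorem den_family : ∃ χ : (p : ℕ) → DirichletCharacter ℂ p, ∀ p : ℕ, p.Prime → p % 4 = 1 →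
    χ p ≠ 1 ∧ χ p ^ 2 ≠ 1 ∧ χ p ^ 3 ≠ 1 ∧ ∀ q : ℕ, ¬ p ∣ q →
      (Pow2 q p ↔ (χ p ^ 2) (q : ZMod p) = 1) ∧ (¬ Pow2 q p ↔ (χ p ^ 2) (q : ZMod p) = -1) ∧
      (Pow4 q p ↔ χ p (q : ZMod p) = 1) ∧
      (Pow2 q p ∧ ¬ Pow4 q p ↔ χ p (q : ZMod p) = -1) ∧
      (¬ Pow2 q p → χ p (q : ZMod p) + (χ p ^ 3) (q : ZMod p) = 0) := by
  have h : ∀ p : ℕ, ∃ χ : DirichletCharacter ℂ p, p.Prime → p % 4 = 1 →
      χ ≠ 1 ∧ χ ^ 2 ≠ 1 ∧ χ ^ 3 ≠ 1 ∧ ∀ q : ℕ, ¬ p ∣ q →
      (Pow2 q p ↔ (χ ^ 2) (q : ZMod p) = 1) ∧ (¬ Pow2 q p ↔ (χ ^ 2) (q : ZMod p) = -1) ∧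
      (Pow4 q p ↔ χ (q : ZMod p) = 1) ∧
      (Pow2 q p ∧ ¬ Pow4 q p ↔ χ (q : ZMod p) = -1) ∧
      (¬ Pow2 q p → χ (q : ZMod p) + (χ ^ 3) (q : ZMod p) = 0) := by
    intro p
    by_cases hp : p.Prime ∧ p % 4 = 1
    · haveI : Fact p.Prime := ⟨hp.1⟩
      obtain ⟨χ, hχ⟩ := quartic_char p hp.2
      exact ⟨χ, fun _ _ => hχ⟩
    · exact ⟨1, fun h1 h2 => absurd ⟨h1, h2⟩ hp⟩
  choose χ hχ using h
  exact ⟨χ, hχ⟩

/-- the sum over `TP X` of a function which is a combination of the three characters on pairs -/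
theorem den_split (χ : (p : ℕ) → DirichletCharacter ℂ p) (A B : ℕ → ℂ) (F : ℕ → ℂ)
    (hF : ∀ p q : ℕ, Pair p q → F (p * q) = A p * (χ p ^ 2) (q : ZMod p) + B p * χ p (q : ZMod p) +
      B p * (χ p ^ 3) (q : ZMod p)) (X : ℕ) :
    ∑ n ∈ TP X, F n =
      (BS X (fun p => χ p ^ 2) (fun p => if p % 8 = 1 then A p else 0) (fun q => if q % 8 = 3 then 1 else 0) +
       BS X χ (fun p => if p % 8 = 1 then B p else 0) (fun q => if q % 8 = 3 then 1 else 0) +
       BS X (fun p => χ p ^ 3) (fun p => if p % 8 = 1 then B p else 0) (fun q => if q % 8 = 3 then 1 else 0)) +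
      (BS X (fun p => χ p ^ 2) (fun p => if p % 8 = 5 then A p else 0) (fun q => if q % 8 = 7 then 1 else 0) +
       BS X χ (fun p => if p % 8 = 5 then B p else 0) (fun q => if q % 8 = 7 then 1 else 0) +
       BS X (fun p => χ p ^ 3) (fun p => if p % 8 = 5 then B p else 0) (fun q => if q % 8 = 7 then 1 else 0)) := by
  rw [tp_sum]
  unfold BS
  simp only [← Finset.sum_add_distrib]
  refine Finset.sum_congr rfl fun p hp => Finset.sum_congr rfl fun q hq => ?_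
  have hpp : p.Prime := (Finset.mem_filter.1 hp).2
  have hqp : q.Prime := (Finset.mem_filter.1 hq).2
  by_cases hc : p % 4 = 1 ∧ q % 4 = 3 ∧ (p * q) % 8 = 3
  · rw [if_pos hc, hF p q ⟨hpp, hqp, hc.1, hc.2.1, hc.2.2⟩]
    obtain ⟨h1, h2, h3⟩ := hc
    have hp8 : p % 8 = 1 ∨ p % 8 = 5 := by omega
    have hq8 : q % 8 = 3 ∨ q % 8 = 7 := by omega
    rw [Nat.mul_mod] at h3
    rcases hp8 with h | h <;> rcases hq8 with h' | h' <;> rw [h, h'] at h3 <;> norm_num at h3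
    · simp [h, h']
    · simp [h, h']
  · rw [if_neg hc]
    by_cases h13 : p % 8 = 1 ∧ q % 8 = 3
    · exact absurd ⟨by omega, by omega, by rw [Nat.mul_mod, h13.1, h13.2]⟩ hc
    · by_cases h57 : p % 8 = 5 ∧ q % 8 = 7
      · exact absurd ⟨by omega, by omega, by rw [Nat.mul_mod, h57.1, h57.2]⟩ hc
      · by_cases a1 : p % 8 = 1
        · have a2 : q % 8 ≠ 3 := fun h => h13 ⟨a1, h⟩
          simp [a1, a2]
        · by_cases a3 : p % 8 = 5
          · have a4 : q % 8 ≠ 7 := fun h => h57 ⟨a3, h⟩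
            simp [a1, a3, a4]
          · simp [a1, a3]

/-- the sum is small -/
theorem den_small (χ : (p : ℕ) → DirichletCharacter ℂ p)
    (hχ : ∀ p : ℕ, p.Prime → p % 4 = 1 → χ p ≠ 1 ∧ χ p ^ 2 ≠ 1 ∧ χ p ^ 3 ≠ 1)
    (A B : ℕ → ℂ) (hA : ∀ n, ‖A n‖ ≤ 1) (hB : ∀ n, ‖B n‖ ≤ 1) (F : ℕ → ℂ)
    (hF : ∀ p q : ℕ, Pair p q → F (p * q) = A p * (χ p ^ 2) (q : ZMod p) + B p * χ p (q : ZMod p) +
      B p * (χ p ^ 3) (q : ZMod p)) (ε : ℝ) (hε : 0 < ε) :
    ∃ X₀ : ℕ, ∀ X : ℕ, X₀ ≤ X →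
      ‖∑ n ∈ TP X, F n‖ ≤ 6 * ε * (X * Real.log (Real.log X) / Real.log X) := by
  obtain ⟨X₀, hX₀⟩ := bil ε hε
  refine ⟨X₀, fun X hX => ?_⟩
  have hb : ∀ (ψ : (p : ℕ) → DirichletCharacter ℂ p) (C : ℕ → ℂ) (r s : ℕ), (∀ n, ‖C n‖ ≤ 1) → r % 4 = 1 → r < 8 →
      (∀ p : ℕ, p.Prime → p % 4 = 1 → ψ p ≠ 1) →
      ‖BS X ψ (fun p => if p % 8 = r then C p else 0) (fun q => if q % 8 = s then 1 else 0)‖ ≤
        ε * (X * Real.log (Real.log X) / Real.log X) := by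
    intro ψ C r s hC hr hr8 hψ
    refine hX₀ X hX ψ _ _ ?_ ?_ ?_
    · intro n
      by_cases h : n % 8 = r
      · simp only [h, if_true]; exact hC n
      · simp only [h, if_false]; simp
    · intro n
      by_cases h : n % 8 = s
      · simp [h]
      · simp [h]
    · intro p hp hne
      by_cases h : p % 8 = r
      · exact hψ p hp (by omega)
      · simp [h] at hne
  rw [den_split χ A B F hF X]
  have e1 := hb (fun p => χ p ^ 2) A 1 3 hA (by norm_num) (by norm_num) (fun p hp h4 => (hχ p hp h4).2.1)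
  have e2 := hb χ B 1 3 hB (by norm_num) (by norm_num) (fun p hp h4 => (hχ p hp h4).1)
  have e3 := hb (fun p => χ p ^ 3) B 1 3 hB (by norm_num) (by norm_num) (fun p hp h4 => (hχ p hp h4).2.2)
  have e4 := hb (fun p => χ p ^ 2) A 5 7 hA (by norm_num) (by norm_num) (fun p hp h4 => (hχ p hp h4).2.1)
  have e5 := hb χ B 5 7 hB (by norm_num) (by norm_num) (fun p hp h4 => (hχ p hp h4).1)
  have e6 := hb (fun p => χ p ^ 3) B 5 7 hB (by norm_num) (by norm_num) (fun p hp h4 => (hχ p hp h4).2.2)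
  refine (norm_add_le _ _).trans ?_
  refine (add_le_add (norm_add₃_le) (norm_add₃_le)).trans ?_
  linarith

/-- from the small sum to the density -/
theorem den_tendsto (S : ℕ → Prop) [DecidablePred S] (t : ℝ)
    (h : ∀ ε : ℝ, 0 < ε → ∃ X₀ : ℕ, ∀ X : ℕ, X₀ ≤ X →
      ‖∑ n ∈ TP X, ((if S n then (1 : ℂ) else 0) - (t : ℂ))‖ ≤ 6 * ε * (X * Real.log (Real.log X) / Real.log X)) :
    Tendsto (fun X : ℕ => (((TP X).filter S).card : ℝ) / (TP X).card) atTop (𝓝 t) := by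
  obtain ⟨c, hc, X₁, hX₁⟩ := tp_lower
  rw [Metric.tendsto_atTop]
  intro ε hε
  obtain ⟨X₀, hX₀⟩ := h (c * ε / 12) (by positivity)
  refine ⟨max (max X₀ X₁) 16, fun X hX => ?_⟩
  have h0 : X₀ ≤ X := le_trans (le_trans (le_max_left _ _) (le_max_left _ _)) hX
  have h1 : X₁ ≤ X := le_trans (le_trans (le_max_right _ _) (le_max_left _ _)) hX
  have h16 : 16 ≤ X := le_trans (le_max_right _ _) hX
  have hXr : (16 : ℝ) ≤ X := by exact_mod_cast h16
  have hlog : 1 < Real.log X := by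
    rw [Real.lt_log_iff_exp_lt (by linarith)]
    exact lt_of_lt_of_le Real.exp_one_lt_d9 (by linarith)
  have hlog2 : 0 < Real.log (Real.log X) := Real.log_pos hlog
  have hL : 0 < X * Real.log (Real.log X) / Real.log X := by positivity
  have hT := hX₁ X h1
  have hTpos : 0 < ((TP X).card : ℝ) := lt_of_lt_of_le (mul_pos hc hL) hT
  have hs := hX₀ X h0
  have hsum : ∑ n ∈ TP X, ((if S n then (1 : ℂ) else 0) - (t : ℂ)) =
      (((((TP X).filter S).card : ℝ) - t * (TP X).card : ℝ) : ℂ) := by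
    rw [Finset.sum_sub_distrib, Finset.sum_const, ← Finset.sum_filter, Finset.sum_const]
    push_cast
    simp only [nsmul_eq_mul, mul_one]
    ring
  rw [hsum, Complex.norm_real, Real.norm_eq_abs] at hs
  rw [Real.dist_eq]
  have heq : (((TP X).filter S).card : ℝ) / (TP X).card - t =
      ((((TP X).filter S).card : ℝ) - t * (TP X).card) / (TP X).card := by
    field_simp
  rw [heq, abs_div, abs_of_pos hTpos, div_lt_iff₀ hTpos]
  calc |((((TP X).filter S).card : ℝ) - t * (TP X).card)|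
      ≤ 6 * (c * ε / 12) * (X * Real.log (Real.log X) / Real.log X) := hs
    _ = (ε / 2) * (c * (X * Real.log (Real.log X) / Real.log X)) := by ring
    _ ≤ (ε / 2) * (TP X).card := by
        apply mul_le_mul_of_nonneg_left hT (by positivity)
    _ < ε * (TP X).card := by nlinarith

/-- DEN: densities among all products of two primes -/
theorem den (t : ℝ) (a m : ℤ) (ham : (m = 16 ∧ a = 8 ∧ t = 1 / 2) ∨ (m = 32 ∧ a = 16 ∧ t = 1 / 4) ∨
      (m = 32 ∧ a = 0 ∧ t = 1 / 4)) :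
    Tendsto (fun X : ℕ => (((TP X).filter (fun n => c n % m = a)).card : ℝ) / (TP X).card) atTop (𝓝 t) := by
  classical
  obtain ⟨χ, hχ⟩ := den_family
  have hχ' : ∀ p : ℕ, p.Prime → p % 4 = 1 → χ p ≠ 1 ∧ χ p ^ 2 ≠ 1 ∧ χ p ^ 3 ≠ 1 :=
    fun p hp h4 => ⟨(hχ p hp h4).1, (hχ p hp h4).2.1, (hχ p hp h4).2.2.1⟩
  have hnd : ∀ p q : ℕ, Pair p q → ¬ p ∣ q := by
    intro p q hpq hd
    obtain ⟨hp, hq, h1, h3, -⟩ := hpq
    have := (Nat.prime_dvd_prime_iff_eq hp hq).1 hd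
    omega
  -- the values of the characters
  have hval : ∀ p q : ℕ, Pair p q →
      (¬ Pow2 q p ∧ (χ p ^ 2) (q : ZMod p) = -1 ∧ χ p (q : ZMod p) + (χ p ^ 3) (q : ZMod p) = 0 ∧
        c (p * q) % 16 = 8) ∨
      (Pow4 q p ∧ (χ p ^ 2) (q : ZMod p) = 1 ∧ χ p (q : ZMod p) + (χ p ^ 3) (q : ZMod p) = 2 ∧
        (16 : ℤ) ∣ c (p * q) ∧ (c (p * q) % 32 = 16 ↔ Ex p)) ∨
      (¬ Pow4 q p ∧ (χ p ^ 2) (q : ZMod p) = 1 ∧ χ p (q : ZMod p) + (χ p ^ 3) (q : ZMod p) = -2 ∧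
        (16 : ℤ) ∣ c (p * q) ∧ (c (p * q) % 32 = 16 ↔ ¬ Ex p)) := by
    intro p q hpq
    obtain ⟨-, -, -, hq⟩ := hχ p hpq.1 hpq.2.2.1
    obtain ⟨q1, q2, q3, q4, q5⟩ := hq q (hnd p q hpq)
    obtain ⟨c1, c2⟩ := c_pq p q hpq
    by_cases h2 : Pow2 q p
    · obtain ⟨c3, c4⟩ := c2 h2
      have hx2 : (χ p ^ 2) (q : ZMod p) = 1 := q1.1 h2
      by_cases h4 : Pow4 q p
      · refine Or.inr (Or.inl ⟨h4, hx2, ?_, c3, ?_⟩)
        · have := q3.1 h4
          rw [show (χ p ^ 3) (q : ZMod p) = (χ p (q : ZMod p)) ^ 3 from MulChar.pow_apply' _ (by norm_num) _, this]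
          norm_num
        · rw [c4]; simp [h4]
      · refine Or.inr (Or.inr ⟨h4, hx2, ?_, c3, ?_⟩)
        · have := q4.1 ⟨h2, h4⟩
          rw [show (χ p ^ 3) (q : ZMod p) = (χ p (q : ZMod p)) ^ 3 from MulChar.pow_apply' _ (by norm_num) _, this]
          norm_num
        · rw [c4]; simp [h4]
    · exact Or.inl ⟨h2, q2.1 h2, q5 h2, c1 h2⟩
  rcases ham with ⟨rfl, rfl, rfl⟩ | ⟨rfl, rfl, rfl⟩ | ⟨rfl, rfl, rfl⟩
  · refine den_tendsto (fun n => c n % 16 = 8) (1 / 2) fun ε hε => ?_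
    refine den_small χ hχ' (fun _ => -(1 / 2)) (fun _ => 0) (fun _ => by norm_num) (fun _ => by norm_num) _ ?_ ε hε
    intro p q hpq
    rcases hval p q hpq with ⟨-, h2, -, hc⟩ | ⟨-, h2, -, hc, -⟩ | ⟨-, h2, -, hc, -⟩
    · simp only [hc, if_true, h2]; push_cast; ring
    · have : ¬ (c (p * q) % 16 = 8) := by omega
      simp only [this, if_false, h2]; push_cast; ring
    · have : ¬ (c (p * q) % 16 = 8) := by omega
      simp only [this, if_false, h2]; push_cast; ring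
  · refine den_tendsto (fun n => c n % 32 = 16) (1 / 4) fun ε hε => ?_
    refine den_small χ hχ' (fun _ => 1 / 4) (fun p => if Ex p then 1 / 4 else -(1 / 4)) (fun _ => by norm_num)
      (fun p => by by_cases h : Ex p <;> simp [h] <;> norm_num) _ ?_ ε hε
    intro p q hpq
    have hB : ∀ B : ℂ, (1 / 4 : ℂ) * (χ p ^ 2) (q : ZMod p) + B * χ p (q : ZMod p) + B * (χ p ^ 3) (q : ZMod p) =
        (1 / 4 : ℂ) * (χ p ^ 2) (q : ZMod p) + B * (χ p (q : ZMod p) + (χ p ^ 3) (q : ZMod p)) := fun B => by ring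
    rw [hB]
    rcases hval p q hpq with ⟨-, h2, h3, hc⟩ | ⟨-, h2, h3, hc, hE⟩ | ⟨-, h2, h3, hc, hE⟩
    · have : ¬ (c (p * q) % 32 = 16) := by omega
      simp only [this, if_false, h2, h3]; push_cast; ring
    · rw [h2, h3]
      by_cases hx : Ex p
      · simp only [hE.2 hx, hx, if_true]; push_cast; ring
      · have : ¬ (c (p * q) % 32 = 16) := fun h => hx (hE.1 h)
        simp only [this, hx, if_false]; push_cast; ring
    · rw [h2, h3]
      by_cases hx : Ex p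
      · have : ¬ (c (p * q) % 32 = 16) := fun h => hE.1 h hx
        simp only [this, hx, if_false, if_true]; push_cast; ring
      · simp only [hE.2 hx, hx, if_true, if_false]; push_cast; ring
  · refine den_tendsto (fun n => c n % 32 = 0) (1 / 4) fun ε hε => ?_
    refine den_small χ hχ' (fun _ => 1 / 4) (fun p => if Ex p then -(1 / 4) else 1 / 4) (fun _ => by norm_num)
      (fun p => by by_cases h : Ex p <;> simp [h] <;> norm_num) _ ?_ ε hε
    intro p q hpq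
    have hB : ∀ B : ℂ, (1 / 4 : ℂ) * (χ p ^ 2) (q : ZMod p) + B * χ p (q : ZMod p) + B * (χ p ^ 3) (q : ZMod p) =
        (1 / 4 : ℂ) * (χ p ^ 2) (q : ZMod p) + B * (χ p (q : ZMod p) + (χ p ^ 3) (q : ZMod p)) := fun B => by ring
    rw [hB]
    rcases hval p q hpq with ⟨-, h2, h3, hc⟩ | ⟨-, h2, h3, hc, hE⟩ | ⟨-, h2, h3, hc, hE⟩
    · have : ¬ (c (p * q) % 32 = 0) := by omega
      simp only [this, if_false, h2, h3]; push_cast; ring
    · rw [h2, h3]
      by_cases hx : Ex p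
      · have h0 := hE.2 hx
        have : ¬ (c (p * q) % 32 = 0) := by omega
        simp only [this, hx, if_false, if_true]; push_cast; ring
      · have h0 : ¬ (c (p * q) % 32 = 16) := fun h => hx (hE.1 h)
        have : c (p * q) % 32 = 0 := by omega
        simp only [this, hx, if_true, if_false]; push_cast; ring
    · rw [h2, h3]
      by_cases hx : Ex p
      · have h0 : ¬ (c (p * q) % 32 = 16) := fun h => hE.1 h hx
        have : c (p * q) % 32 = 0 := by omega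
        simp only [this, hx, if_true]; push_cast; ring
      · have h0 := hE.2 hx
        have : ¬ (c (p * q) % 32 = 0) := by omega
        simp only [this, hx, if_false]; push_cast; ring

end Pool.Agent.PQ
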